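import Pool.Agent.Lib.MP_39c2b7_co.H56.Main

/-!
# Every planar graph has strong arboricity at most 4

Planarity is defined through rotation systems: a finite graph is planar if and only if it has a
rotation system of genus zero (Heffter, Edmonds), that is, one satisfying Euler's formula.
-/

namespace Pool.Agent.Results.MP_39c2b7_co.FourColours

variable {V : Type}

/-- `c` is strongly woody: no broken cycle `C - e` (`C` a cycle of `G`, `e` an edge of `C`) has all
its edges in one colour. -/
def StronglyWoody (G : SimpleGraph V) {k : ℕ} (c : G.edgeSet → Fin k) : Prop :=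
  ∀ (v : V) (C : G.Walk v v), C.IsCycle → ∀ e ∈ C.edges,
    ¬ ∃ i : Fin k, ∀ f, ∀ hf : f ∈ C.edges, f ≠ e → c ⟨f, C.edges_subset_edgeSet hf⟩ = i

/-- The strong arboricity: the least number of colours of a strongly woody edge colouring
(`⊤` if there is none). -/
noncomputable def strongArboricity (G : SimpleGraph V) : ℕ∞ :=
  ⨅ (k : ℕ) (_ : ∃ c : G.edgeSet → Fin k, StronglyWoody G c), (k : ℕ∞)

/-- A rotation system of `G`: a permutation of the darts (oriented edges) whose cycles are
exactly the sets of darts with a common first vertex. -/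
structure IsRotationSystem (G : SimpleGraph V) (rot : Equiv.Perm G.Dart) : Prop where
  fst_eq : ∀ d, (rot d).fst = d.fst
  sameCycle : ∀ d d' : G.Dart, d.fst = d'.fst → rot.SameCycle d d'

/-- The face permutation of a rotation system: reverse the dart, then rotate. -/
def facePerm (G : SimpleGraph V) (rot : Equiv.Perm G.Dart) : Equiv.Perm G.Dart :=
  (Equiv.mk SimpleGraph.Dart.symm SimpleGraph.Dart.symm SimpleGraph.Dart.symm_symm
    SimpleGraph.Dart.symm_symm : Equiv.Perm G.Dart).trans rot

/-- The number of faces: the cycles of the face permutation, and one face for every isolated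
vertex. -/
noncomputable def faceCount (G : SimpleGraph V) (rot : Equiv.Perm G.Dart) : ℕ :=
  Nat.card (Quotient (Equiv.Perm.SameCycle.setoid (facePerm G rot))) +
    ({v | ∀ w, ¬ G.Adj v w} : Set V).ncard

/-- A finite graph is planar if it has a rotation system of genus zero, i.e. one with
`#vertices + #faces = #edges + 2 * #components` (Euler's formula). -/
def IsPlanar (G : SimpleGraph V) : Prop :=
  ∃ rot : Equiv.Perm G.Dart, IsRotationSystem G rot ∧
    Nat.card V + faceCount G rot = G.edgeSet.ncard + 2 * Nat.card G.ConnectedComponent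

/-- **Every planar graph has strong arboricity at most four.** -/
theorem result (V : Type) [Finite V] (G : SimpleGraph V) (hG : IsPlanar G) :
    strongArboricity G ≤ 4 := by
  have hP : StrongArb.IsPlanar G := by
    obtain ⟨rot, hr, he⟩ := hG
    exact ⟨rot, ⟨hr.fst_eq, hr.sameCycle⟩, he⟩
  obtain ⟨p, hp⟩ := StrongArb.H56.good_of_planar V G hP
  obtain ⟨c, hc⟩ := StrongArb.H56.colour_of_good hp
  exact iInf₂_le (4 : ℕ) ⟨c, hc⟩

end Pool.Agent.Results.MP_39c2b7_co.FourColours
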